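import Pool.Agent.Helper39.Trans.Goals2

/-!
# MP_549fdb_co, packet M: assembly of the induction
-/

set_option linter.unusedSectionVars false

namespace Pool.Agent.Helper85.Trans

open Finset Classical Matrix Pool.Agent.Helper39.Trans

theorem card_filter_subtype {α : Type} (X : Set α) [Fintype X] (P : α → Prop)
    {_ : DecidablePred fun q : X => P q.1} :
    (univ.filter fun q : X => P q.1).card = {x | x ∈ X ∧ P x}.ncard := by
  have h : {x | x ∈ X ∧ P x} = Subtype.val '' {q : X | P q.1} := by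
    ext x
    constructor
    · rintro ⟨h1, h2⟩
      exact ⟨⟨x, h1⟩, h2, rfl⟩
    · rintro ⟨q, hq, rfl⟩
      exact ⟨q.2, hq⟩
  rw [h, Set.ncard_image_of_injective _ Subtype.val_injective,
    Set.ncard_eq_toFinset_card', Set.toFinset_ofPred]

variable {n : ℕ} {ι Λ κ : Type} [Fintype ι] [Fintype Λ] [Fintype κ] (A : Sys n ι Λ κ)

theorem jg_le (q : Fin n → ℝ) :
    (A.Jg q).card + (A.Ig q).card + (A.Bt q).card ≤ A.cnt univ q := by
  unfold Sys.cnt
  have h1 : (univ.filter fun l => A.Act l q).card = (A.Ig q).card := rfl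
  have h2 : (A.Jg q).card ≤ ∑ l : Λ, ((A.W l q).card - 1) := by
    calc (A.Jg q).card = ∑ l ∈ A.Jg q, 1 := by simp
      _ ≤ ∑ l ∈ A.Jg q, ((A.W l q).card - 1) := by
          apply Finset.sum_le_sum
          intro l hl
          have : 2 ≤ (A.W l q).card := (Finset.mem_filter.mp hl).2
          omega
      _ ≤ ∑ l : Λ, ((A.W l q).card - 1) :=
          Finset.sum_le_sum_of_subset (Finset.subset_univ _)
  omega

theorem dg_le (q : Fin n → ℝ) : (A.Dg q).card ≤ A.cnt univ q := by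
  have h1 := jg_le A q
  have h2 : (A.Dg q).card ≤ (A.Ig q).card + (A.Jg q).card := Finset.card_union_le _ _
  omega

theorem pure_facts {q : Fin n → ℝ} (h1 : A.cnt univ q = n) (h2 : (A.Dg q).card = n) :
    (A.Bt q).card = 0 ∧ (A.Jg q).card + (A.Ig q).card = n := by
  have h3 := jg_le A q
  have h4 : (A.Dg q).card ≤ (A.Ig q).card + (A.Jg q).card := Finset.card_union_le _ _
  omega

theorem conf_disj (q : Fin n → ℝ) : Disjoint (A.Dg q) (A.conf q) := by
  rw [Finset.disjoint_left]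
  intro l hl hl'
  exact (Finset.mem_filter.mp hl').2.1 hl

theorem conf_inter {G : Finset Λ} {q : Fin n → ℝ} (hG : G ⊆ A.Jg q) (S : Finset Λ) :
    A.conf q ∩ (S \ G) = A.conf q ∩ S := by
  ext l
  simp only [Finset.mem_inter, Finset.mem_sdiff]
  constructor
  · rintro ⟨h1, h2, -⟩
    exact ⟨h1, h2⟩
  · rintro ⟨h1, h2⟩
    refine ⟨h1, h2, fun h3 => ?_⟩
    exact Finset.disjoint_left.mp (conf_disj A q) (Finset.mem_union_right _ (hG h3)) h1

theorem conf_disj_iff {G : Finset Λ} {q : Fin n → ℝ} (hG : G ⊆ A.Jg q) (S : Finset Λ) :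
    Disjoint (A.conf q) S ↔ Disjoint (A.conf q) (S \ G) := by
  rw [Finset.disjoint_iff_inter_eq_empty, Finset.disjoint_iff_inter_eq_empty,
    conf_inter A hG]

theorem mem_pure_iff {e : ℕ} {G S : Finset Λ} {q : Fin n → ℝ} (hq : q ∈ A.PureSet e G univ) :
    A.Dg q \ G ⊆ S ↔ q ∈ A.PureSet e G (S \ G) := by
  obtain ⟨h1, h2, h3, h4, h5⟩ := hq
  constructor
  · intro h
    refine ⟨h1, h2, h3, ?_, h5⟩
    intro l hl
    by_cases hlG : l ∈ G
    · exact Finset.mem_union_left _ hlG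
    · exact Finset.mem_union_right _ (Finset.mem_sdiff.mpr
        ⟨h (Finset.mem_sdiff.mpr ⟨hl, hlG⟩), hlG⟩)
  · rintro ⟨-, -, -, h6, -⟩ l hl
    have hl' := Finset.mem_sdiff.mp hl
    have := Finset.mem_union.mp (h6 hl'.1)
    rcases this with h | h
    · exact absurd h hl'.2
    · exact (Finset.mem_sdiff.mp h).1

theorem pure_sub {e : ℕ} {G S : Finset Λ} : A.PureSet e G S ⊆ A.PureSet e G univ := by
  rintro q ⟨h1, h2, h3, h4, h5⟩
  exact ⟨h1, h2, h3, fun l _ => Finset.mem_union_right _ (Finset.mem_univ l), h5⟩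

theorem size_mono {S S' : Finset Λ} (h : S ⊆ S') : A.size S ≤ A.size S' := by
  unfold Sys.size
  exact Finset.sum_le_sum_of_subset h

theorem fib_le_size {S : Finset Λ} {g : Λ} (h : g ∈ S) : (A.fib g).card ≤ A.size S := by
  unfold Sys.size
  exact Finset.single_le_sum (f := fun l => (A.fib l).card) (fun _ _ => Nat.zero_le _) h

theorem size_univ : A.size univ = Fintype.card ι := by
  unfold Sys.size Sys.fib
  rw [← Finset.card_eq_sum_card_fiberwise (f := A.grp) (s := univ) (t := univ)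
    (fun _ _ => Finset.mem_coe.mpr (Finset.mem_univ _))]
  exact Finset.card_univ

/-- Number of pure vertices without conflicts. -/
noncomputable def N0 (e : ℕ) (G S : Finset Λ) : ℕ :=
  {q ∈ A.PureSet e G S | Disjoint (A.conf q) S}.ncard

/-- Card of the filter as the number of pure vertices without conflicts. -/
theorem card_eq_N0 (e : ℕ) (G S : Finset Λ) [Fintype (A.PureSet e G univ)] :
    (univ.filter fun q : A.PureSet e G univ => A.Dg q.1 \ G ⊆ S ∧
      Disjoint (A.conf q.1) S).card = N0 A e G (S \ G) := by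
  refine (card_filter_subtype (A.PureSet e G univ)
    (fun q => A.Dg q \ G ⊆ S ∧ Disjoint (A.conf q) S)).trans ?_
  unfold N0
  congr 1
  ext q
  constructor
  · rintro ⟨h1, h2, h3⟩
    exact ⟨(mem_pure_iff A h1).mp h2, (conf_disj_iff A h1.2.2.2.2 S).mp h3⟩
  · rintro ⟨h1, h2⟩
    have h3 := pure_sub A h1
    exact ⟨h3, (mem_pure_iff A h3).mpr h1, (conf_disj_iff A h3.2.2.2.2 S).mpr h2⟩

theorem card_eq_N1 (e : ℕ) (G S : Finset Λ) [Fintype (A.PureSet e G univ)] :
    (univ.filter fun q : A.PureSet e G univ => A.Dg q.1 \ G ⊆ S ∧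
      (A.conf q.1 ∩ S).card = 1).card =
      {q ∈ A.PureSet e G (S \ G) | (A.conf q ∩ (S \ G)).card = 1}.ncard := by
  refine (card_filter_subtype (A.PureSet e G univ)
    (fun q => A.Dg q \ G ⊆ S ∧ (A.conf q ∩ S).card = 1)).trans ?_
  congr 1
  ext q
  constructor
  · rintro ⟨h1, h2, h3⟩
    refine ⟨(mem_pure_iff A h1).mp h2, ?_⟩
    rw [conf_inter A h1.2.2.2.2]
    exact h3
  · rintro ⟨h1, h2⟩
    have h3 := pure_sub A h1
    rw [conf_inter A h3.2.2.2.2] at h2
    exact ⟨h3, (mem_pure_iff A h3).mpr h1, h2⟩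

theorem card_eq_Nle (e : ℕ) (G S : Finset Λ) [Fintype (A.PureSet e G univ)] :
    (univ.filter fun q : A.PureSet e G univ => A.Dg q.1 \ G ⊆ S ∧
      (A.conf q.1 ∩ S).card ≤ 1).card =
      {q ∈ A.PureSet e G (S \ G) | (A.conf q ∩ (S \ G)).card ≤ 1}.ncard := by
  refine (card_filter_subtype (A.PureSet e G univ)
    (fun q => A.Dg q \ G ⊆ S ∧ (A.conf q ∩ S).card ≤ 1)).trans ?_
  congr 1
  ext q
  constructor
  · rintro ⟨h1, h2, h3⟩
    refine ⟨(mem_pure_iff A h1).mp h2, ?_⟩
    rw [conf_inter A h1.2.2.2.2]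
    exact h3
  · rintro ⟨h1, h2⟩
    have h3 := pure_sub A h1
    rw [conf_inter A h3.2.2.2.2] at h2
    exact ⟨h3, (mem_pure_iff A h3).mpr h1, h2⟩

/-- The bound for `e`, for sets `G` with at least `n - m` elements. -/
def Bd (n : ℕ) (κ : Type) [Fintype κ] (e m : ℕ) : Prop :=
  ∃ C : ℕ, ∀ (ι Λ : Type) [Fintype ι] [Fintype Λ] (A : Sys n ι Λ κ) (t : Fin n), A.Full → A.GP →
    A.Bdd → A.Vert t → ∀ G S : Finset Λ, Disjoint G S → n ≤ G.card + m →
      N0 A e G S ≤ C * (∏ g ∈ G, (A.fib g).card) * A.size S ^ (n - 1 - G.card) *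
        (invAck (Fintype.card ι) + 1)

theorem sdiff_self_of_disj {G S : Finset Λ} (h : Disjoint G S) : S \ G = S :=
  Finset.sdiff_eq_self_of_disjoint h.symm

theorem conv_ineq {e : ℕ} (heR : (0 : ℝ) < (e : ℝ) * (e + 1)) (x y z : ℕ)
    (h : (e * (e + 1) + 1) * x ≤ e * (e + 1) * y + z) :
    (1 + 1 / ((e : ℝ) * (e + 1))) * (x : ℝ) ≤ (y : ℝ) + (z : ℝ) := by
  have h7 : ((e : ℝ) * (e + 1) + 1) * x ≤ (e : ℝ) * (e + 1) * y + z := by exact_mod_cast h
  have h9' : ∀ a : ℝ, 0 < a → (1 + 1 / a) * (x : ℝ) = (a + 1) * x / a := by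
    intro a ha
    field_simp
  have h9 := h9' _ heR
  rw [h9, div_le_iff₀ heR]
  have h10 : 1 ≤ (e : ℝ) * (e + 1) := by
    have h11 : 1 ≤ e := by
      rcases Nat.eq_zero_or_pos e with h | h
      · subst h
        simp at heR
      · exact h
    have : (1 : ℝ) ≤ e := by exact_mod_cast h11
    nlinarith
  have hz : (0 : ℝ) ≤ z := Nat.cast_nonneg z
  nlinarith

theorem concl (CR : ℝ) (Cst Pi al sz CI m N : ℕ)
    (h : (N : ℝ) ≤ CR * ((Cst * Pi * al : ℕ) : ℝ) * (sz : ℝ) ^ m) :
    N ≤ (CI + ⌈CR⌉₊ * Cst) * Pi * sz ^ m * al := by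
  have h7 : (N : ℝ) ≤ (((CI + ⌈CR⌉₊ * Cst) * Pi * sz ^ m * al : ℕ) : ℝ) := by
    refine h.trans ?_
    push_cast
    have h8 : CR ≤ (⌈CR⌉₊ : ℝ) := Nat.le_ceil CR
    have h9 : (0 : ℝ) ≤ (Cst : ℝ) * Pi * al * (sz : ℝ) ^ m := by positivity
    have h10 : (0 : ℝ) ≤ (CI : ℝ) * Pi * (sz : ℝ) ^ m * al := by positivity
    calc CR * ((Cst : ℝ) * Pi * al) * (sz : ℝ) ^ m =
        CR * ((Cst : ℝ) * Pi * al * (sz : ℝ) ^ m) := by ring
      _ ≤ (⌈CR⌉₊ : ℝ) * ((Cst : ℝ) * Pi * al * (sz : ℝ) ^ m) :=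
          mul_le_mul_of_nonneg_right h8 h9
      _ ≤ (CI : ℝ) * Pi * (sz : ℝ) ^ m * al +
          (⌈CR⌉₊ : ℝ) * ((Cst : ℝ) * Pi * al * (sz : ℝ) ^ m) := by linarith
      _ = _ := by ring
  exact_mod_cast h7

theorem step {n : ℕ} {κ : Type} [Fintype κ] {e m : ℕ} (he : 2 ≤ e)
    (hDef : CountDef n κ) (hAct : CountAct n κ) (hNon : CountNonpure n κ)
    (hGain : Gain n κ) (hRec : Recursion)
    (hAv : Averaging) (hprev : Bd n κ (e - 1) n) (ih : Bd n κ e m) : Bd n κ e (m + 1) := by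
  obtain ⟨CD, hCD⟩ := hDef
  obtain ⟨CA, hCA⟩ := hAct
  obtain ⟨CG, hCG⟩ := hGain
  obtain ⟨CP, hCP⟩ := hprev
  obtain ⟨CI, hCI⟩ := ih
  obtain ⟨CN, hCN⟩ := hNon
  have heR : (0 : ℝ) < (e : ℝ) * (e + 1) := by
    have : (2 : ℝ) ≤ e := by exact_mod_cast he
    positivity
  obtain ⟨CR, hCR0, hCR⟩ := hRec m (1 / ((e : ℝ) * (e + 1))) (by positivity)
  set Cst : ℕ := CG * (CD + 2 ^ (n + 1) * CP) + CA + CI with hCst
  clear_value Cst
  refine ⟨CI + ⌈CR⌉₊ * Cst, ?_⟩
  intro ι Λ _ _ A t hF hGP hB hV G S hGS hGm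
  set al : ℕ := invAck (Fintype.card ι) + 1 with hal
  have hal1 : 1 ≤ al := by omega
  set Pi : ℕ := ∏ g ∈ G, (A.fib g).card with hPi
  clear_value al Pi
  by_cases hcase : n ≤ G.card + m
  · refine (hCI ι Λ A t hF hGP hB hV G S hGS hcase).trans ?_
    rw [← hPi, ← hal]
    gcongr
    omega
  have hGcard : G.card + m + 1 = n := by omega
  have hexp : n - 1 - G.card = m := by omega
  rw [hexp]
  -- every vertex of the pure set has few ties
  have hJ : ∀ S' : Finset Λ, ∀ q ∈ A.PureSet e G S', G.card + (e + 1) ≤ n := by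
    rintro S' q ⟨h1, h2, h3, h4, h5⟩
    have h6 := (pure_facts A h1.2 h2).2
    have h7 := Finset.card_le_card h5
    omega
  by_cases hm : m = 0
  · have hempty : N0 A e G S = 0 := by
      unfold N0
      have hset : {q ∈ A.PureSet e G S | Disjoint (A.conf q) S} = ∅ := by
        ext q
        simp only [Set.mem_empty_iff_false, iff_false]
        rintro ⟨h1, -⟩
        have := hJ S q h1
        omega
      rw [hset, Set.ncard_empty]
    rw [hempty]
    exact Nat.zero_le _
  have hfinV : {q | A.Vtx univ q}.Finite := (hCN ι Λ A hF hGP).1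
  have hfinP : ∀ (e' : ℕ) (G' S' : Finset Λ), (A.PureSet e' G' S').Finite :=
    fun e' G' S' => hfinV.subset (fun q h => h.1)
  have i1 : Fintype (A.PureSet e G univ) := (hfinP e G univ).fintype
  have i2 : Fintype (A.PureSet (e - 1) G univ) := (hfinP (e - 1) G univ).fintype
  -- the two hypotheses of the recursion, in natural numbers
  have key1 : ∀ S₁ : Finset Λ, Disjoint G S₁ →
      (e * (e + 1) + 1) * N0 A e G S₁ ≤
        e * (e + 1) * {q ∈ A.PureSet e G S₁ | (A.conf q ∩ S₁).card = 1}.ncard +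
        CG * (CD + 2 ^ (n + 1) * CP) * Pi * al * A.size S₁ ^ m := by
    intro S₁ hGS₁
    have h1 := hCG ι Λ A hF hGP hB e G S₁ he hGS₁
    have h2 := (hCD ι Λ A hF hGP G S₁ hGS₁).2
    rw [hexp, ← hPi] at h2
    have h3 : {q ∈ A.PureSet (e - 1) G S₁ | (A.conf q ∩ S₁).card ≤ 1}.ncard ≤
        2 ^ (n + 1) * (CP * Pi * A.size S₁ ^ m * al) := by
      have h4 := hAv Λ (A.PureSet (e - 1) G univ) (fun q => A.Dg q.1 \ G)
        (fun q => A.conf q.1) n (CP * Pi * A.size S₁ ^ m * al) S₁ ?_ ?_ ?_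
      · have h5 := card_eq_Nle A (e - 1) G S₁
        rw [sdiff_self_of_disj hGS₁] at h5
        rw [← h5]
        exact h4
      · intro q
        refine (Finset.card_le_card Finset.sdiff_subset).trans ?_
        exact q.2.2.1.le
      · intro q
        exact Finset.disjoint_of_subset_left Finset.sdiff_subset (conf_disj A q.1)
      · intro S₂ hS₂
        have hGS₂ : Disjoint G S₂ := Finset.disjoint_of_subset_right hS₂ hGS₁
        have h5 := card_eq_N0 A (e - 1) G S₂
        rw [sdiff_self_of_disj hGS₂] at h5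
        refine h5.le.trans ?_
        refine (hCP ι Λ A t hF hGP hB hV G S₂ hGS₂ (by omega)).trans ?_
        rw [hexp, ← hPi, ← hal]
        have := size_mono A hS₂
        gcongr
    refine h1.trans ?_
    have h6 : CG * ((A.DefSet G S₁).ncard +
        {q ∈ A.PureSet (e - 1) G S₁ | (A.conf q ∩ S₁).card ≤ 1}.ncard) ≤
        CG * (CD + 2 ^ (n + 1) * CP) * Pi * al * A.size S₁ ^ m := by
      calc CG * ((A.DefSet G S₁).ncard +
          {q ∈ A.PureSet (e - 1) G S₁ | (A.conf q ∩ S₁).card ≤ 1}.ncard) ≤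
          CG * (CD * Pi * A.size S₁ ^ m * al + 2 ^ (n + 1) * (CP * Pi * A.size S₁ ^ m * al)) := by
            gcongr
            exact h2.trans (Nat.le_mul_of_pos_right _ hal1)
        _ = _ := by ring
    omega
  have key2 : ∀ S₁ : Finset Λ, Disjoint G S₁ → ∀ g ∈ S₁,
      {q ∈ A.PureSet e G S₁ | Disjoint (A.conf q) S₁ ∧ g ∈ A.Dg q}.ncard ≤
        (CA + CI) * Pi * al * A.size S₁ ^ m := by
    intro S₁ hGS₁ g hg
    have hgG : g ∉ G := fun h => Finset.disjoint_left.mp hGS₁ h hg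
    have h1 := (hCA ι Λ A hF hGP e G S₁ g hGS₁).2
    rw [hexp, ← hPi] at h1
    have hdis : Disjoint (insert g G) (S₁.erase g) := by
      rw [Finset.disjoint_left]
      intro l hl hl'
      rcases Finset.mem_insert.mp hl with h | h
      · exact (Finset.mem_erase.mp hl').1 h
      · exact Finset.disjoint_left.mp hGS₁ h (Finset.mem_erase.mp hl').2
    have hcardI : (insert g G).card = G.card + 1 := Finset.card_insert_of_notMem hgG
    have h2 := hCI ι Λ A t hF hGP hB hV (insert g G) (S₁.erase g) hdis (by omega)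
    rw [Finset.prod_insert hgG, ← hPi, ← hal, hcardI,
      show n - 1 - (G.card + 1) = m - 1 by omega] at h2
    have h3 : {q ∈ A.PureSet e G S₁ | Disjoint (A.conf q) S₁ ∧ g ∈ A.Dg q} ⊆
        {q ∈ A.PureSet e G S₁ | g ∈ A.Ig q} ∪
        {q ∈ A.PureSet e (insert g G) (S₁.erase g) | Disjoint (A.conf q) (S₁.erase g)} := by
      rintro q ⟨h4, h5, h6⟩
      rcases Finset.mem_union.mp h6 with h7 | h7
      · exact Or.inl ⟨h4, h7⟩
      · right
        obtain ⟨k1, k2, k3, k4, k5⟩ := h4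
        refine ⟨⟨k1, k2, k3, ?_, ?_⟩, Finset.disjoint_of_subset_right (Finset.erase_subset _ _) h5⟩
        · intro l hl
          rcases Finset.mem_union.mp (k4 hl) with h | h
          · exact Finset.mem_union_left _ (Finset.mem_insert_of_mem h)
          · by_cases hlg : l = g
            · exact Finset.mem_union_left _ (by rw [hlg]; exact Finset.mem_insert_self _ _)
            · exact Finset.mem_union_right _ (Finset.mem_erase.mpr ⟨hlg, h⟩)
        · exact Finset.insert_subset h7 k5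
    have h4 := Set.ncard_le_ncard h3 (((hfinP e G S₁).subset (fun q h => h.1)).union
      ((hfinP e (insert g G) (S₁.erase g)).subset (fun q h => h.1)))
    have h5 := Set.ncard_union_le {q ∈ A.PureSet e G S₁ | g ∈ A.Ig q}
      {q ∈ A.PureSet e (insert g G) (S₁.erase g) | Disjoint (A.conf q) (S₁.erase g)}
    have h6 : {q ∈ A.PureSet e (insert g G) (S₁.erase g) |
        Disjoint (A.conf q) (S₁.erase g)}.ncard ≤ CI * Pi * al * A.size S₁ ^ m := by
      refine h2.trans ?_
      have h7 : (A.fib g).card ≤ A.size S₁ := fib_le_size A hg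
      have h8 : A.size (S₁.erase g) ≤ A.size S₁ := size_mono A (Finset.erase_subset _ _)
      calc CI * ((A.fib g).card * Pi) * A.size (S₁.erase g) ^ (m - 1) * al ≤
          CI * (A.size S₁ * Pi) * A.size S₁ ^ (m - 1) * al := by gcongr
        _ = CI * Pi * al * (A.size S₁ ^ (m - 1) * A.size S₁) := by ring
        _ = CI * Pi * al * A.size S₁ ^ m := by
            rw [← pow_succ, Nat.sub_add_cancel (Nat.pos_of_ne_zero hm)]
    have h7 : {q ∈ A.PureSet e G S₁ | g ∈ A.Ig q}.ncard ≤ CA * Pi * al * A.size S₁ ^ m := by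
      refine h1.trans ?_
      calc CA * Pi * A.size S₁ ^ m ≤ CA * Pi * A.size S₁ ^ m * al :=
            Nat.le_mul_of_pos_right _ hal1
        _ = _ := by ring
    calc _ ≤ _ := h4
      _ ≤ _ := h5
      _ ≤ CA * Pi * al * A.size S₁ ^ m + CI * Pi * al * A.size S₁ ^ m := by omega
      _ = _ := by ring
  have hsize : ∀ S₁ : Finset Λ, (∑ l ∈ S₁, ((A.fib l).card : ℝ)) = (A.size S₁ : ℝ) := by
    intro S₁
    unfold Sys.size
    push_cast
    rfl
  have hBnn : (0 : ℝ) ≤ (Cst * Pi * al : ℕ) := Nat.cast_nonneg _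
  have main := hCR Λ (A.PureSet e G univ) (fun q => A.Dg q.1 \ G) (fun q => A.conf q.1)
    (fun l => ((A.fib l).card : ℝ)) ((Cst * Pi * al : ℕ) : ℝ) hBnn
    (fun l => Nat.cast_nonneg _) ?_ ?_ ?_ ?_ S
  · -- conclusion
    rw [hsize] at main
    have h5 := card_eq_N0 A e G S
    rw [sdiff_self_of_disj hGS] at h5
    have h6 : (N0 A e G S : ℝ) ≤ CR * ((Cst * Pi * al : ℕ) : ℝ) * (A.size S : ℝ) ^ m := by
      rw [← h5]
      exact main
    exact concl CR _ _ _ _ _ _ _ h6
  · -- cardinality of `D q`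
    intro q
    show (A.Dg q.1 \ G).card = m + 1
    have h1 : G ⊆ A.Dg q.1 := fun l hl => Finset.mem_union_right _ (q.2.2.2.2.2 hl)
    rw [Finset.card_sdiff_of_subset h1, q.2.2.1]
    omega
  · intro q
    exact Finset.disjoint_of_subset_left Finset.sdiff_subset (conf_disj A q.1)
  · -- first hypothesis
    intro S'
    have hdis : Disjoint G (S' \ G) := Finset.disjoint_sdiff
    have h1 := key1 (S' \ G) hdis
    rw [hsize]
    have h2 := card_eq_N0 A e G S'
    have h3 := card_eq_N1 A e G S'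
    rw [← h2, ← h3] at h1
    have h4 : A.size (S' \ G) ≤ A.size S' := size_mono A Finset.sdiff_subset
    have h5 : CG * (CD + 2 ^ (n + 1) * CP) * Pi * al * A.size (S' \ G) ^ m ≤
        Cst * Pi * al * A.size S' ^ m := by
      gcongr
      omega
    have h6 := h1.trans (Nat.add_le_add_left h5 _)
    refine (conv_ineq heR _ _ _ h6).trans (le_of_eq ?_)
    rw [Nat.cast_mul (Cst * Pi * al), Nat.cast_pow]
  · -- second hypothesis
    intro S' g hg
    rw [hsize]
    by_cases hgG : g ∈ G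
    · have : (univ.filter fun q : A.PureSet e G univ => (A.Dg q.1 \ G ⊆ S' ∧
          Disjoint (A.conf q.1) S') ∧ g ∈ A.Dg q.1 \ G) = ∅ := by
        apply Finset.filter_eq_empty_iff.mpr
        rintro q - ⟨-, h⟩
        exact (Finset.mem_sdiff.mp h).2 hgG
      rw [this, Finset.card_empty]
      push_cast
      positivity
    · have hdis : Disjoint G (S' \ G) := Finset.disjoint_sdiff
      have h1 := key2 (S' \ G) hdis g (Finset.mem_sdiff.mpr ⟨hg, hgG⟩)
      have h4 : A.size (S' \ G) ≤ A.size S' := size_mono A Finset.sdiff_subset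
      have h2 : (univ.filter fun q : A.PureSet e G univ => (A.Dg q.1 \ G ⊆ S' ∧
          Disjoint (A.conf q.1) S') ∧ g ∈ A.Dg q.1 \ G).card =
          {q ∈ A.PureSet e G (S' \ G) | Disjoint (A.conf q) (S' \ G) ∧ g ∈ A.Dg q}.ncard := by
        refine (card_filter_subtype (A.PureSet e G univ)
          (fun q => (A.Dg q \ G ⊆ S' ∧ Disjoint (A.conf q) S') ∧ g ∈ A.Dg q \ G)).trans ?_
        congr 1
        ext q
        constructor
        · rintro ⟨k1, ⟨k2, k3⟩, k4⟩
          exact ⟨(mem_pure_iff A k1).mp k2, (conf_disj_iff A k1.2.2.2.2 S').mp k3,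
            (Finset.mem_sdiff.mp k4).1⟩
        · rintro ⟨k1, k2, k4⟩
          have k3 := pure_sub A k1
          exact ⟨k3, ⟨(mem_pure_iff A k3).mpr k1, (conf_disj_iff A k3.2.2.2.2 S').mpr k2⟩,
            Finset.mem_sdiff.mpr ⟨k4, hgG⟩⟩
      have h3 : (univ.filter fun q : A.PureSet e G univ => (A.Dg q.1 \ G ⊆ S' ∧
          Disjoint (A.conf q.1) S') ∧ g ∈ A.Dg q.1 \ G).card ≤
          Cst * Pi * al * A.size S' ^ m := by
        rw [h2]
        refine h1.trans ?_
        gcongr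
        omega
      calc _ ≤ ((Cst * Pi * al * A.size S' ^ m : ℕ) : ℝ) := Nat.cast_le.mpr h3
        _ = _ := by rw [Nat.cast_mul (Cst * Pi * al), Nat.cast_pow]

theorem base_zero {n : ℕ} {κ : Type} [Fintype κ] {e : ℕ} : Bd n κ e 0 := by
  refine ⟨0, ?_⟩
  intro ι Λ _ _ A t hF hGP hB hV G S hGS hGm
  have hset : {q ∈ A.PureSet e G S | Disjoint (A.conf q) S} = ∅ := by
    ext q
    simp only [Set.mem_empty_iff_false, iff_false]
    rintro ⟨⟨h1, h2, h3, h4, h5⟩, -⟩
    have h6 := (pure_facts A h1.2 h2).2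
    have h7 := Finset.card_le_card h5
    omega
  unfold N0
  rw [hset, Set.ncard_empty]
  exact Nat.zero_le _

theorem base_one {n : ℕ} {κ : Type} [Fintype κ] (hDef : CountDef n κ) (hStrip : StripBound n κ) :
    Bd n κ 1 n := by
  obtain ⟨CD, hCD⟩ := hDef
  obtain ⟨CS, hCS⟩ := hStrip
  refine ⟨CS * CD, ?_⟩
  intro ι Λ _ _ A t hF hGP hB hV G S hGS hGm
  have h1 := hCS ι Λ A t hF hGP hB hV G S hGS
  have h2 := (hCD ι Λ A hF hGP G S hGS).2
  unfold N0
  refine h1.trans ?_
  calc CS * (invAck (Fintype.card ι) + 1) * (A.DefSet G S).ncard ≤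
      CS * (invAck (Fintype.card ι) + 1) *
        (CD * (∏ g ∈ G, (A.fib g).card) * A.size S ^ (n - 1 - G.card)) :=
        Nat.mul_le_mul_left _ h2
    _ = _ := by ring

theorem all_e {n : ℕ} {κ : Type} [Fintype κ]
    (hDef : CountDef n κ) (hAct : CountAct n κ) (hNon : CountNonpure n κ)
    (hStrip : StripBound n κ) (hGain : Gain n κ) (hRec : Recursion)
    (hAv : Averaging) : ∀ e : ℕ, 1 ≤ e → Bd n κ e n := by
  intro e he
  induction e, he using Nat.le_induction with
  | base => exact base_one hDef hStrip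
  | succ e he ih =>
    have h : ∀ m, Bd n κ (e + 1) m := by
      intro m
      induction m with
      | zero => exact base_zero
      | succ m ihm =>
        exact step (by omega) hDef hAct hNon hGain hRec hAv (by simpa using ih) ihm
    exact h n

/-- The number of active groups of a vertex with `n` defining groups is positive. -/
theorem ig_pos {n : ℕ} {ι Λ κ : Type} [Fintype ι] [Fintype Λ] [Fintype κ] (A : Sys n ι Λ κ)
    (hLin : LinFacts n κ) {t : Fin n} (hF : A.Full) (hGP : A.GP) (hV : A.Vert t)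
    {q : Fin n → ℝ} (h1 : A.Vtx univ q) (h2 : (A.Dg q).card = n) : 1 ≤ (A.Ig q).card := by
  by_contra hcon
  have h0 : (A.Ig q).card = 0 := by omega
  have hI : A.Ig q = ∅ := Finset.card_eq_zero.mp h0
  have hB : A.Bt q = ∅ := Finset.card_eq_zero.mp (pure_facts A h1.2 h2).1
  obtain ⟨sg, hsg, hsg2⟩ := hV
  have h3 := (hLin ι Λ A hF hGP univ q h1.1).2.1 h1.2 (Pi.single t 1) ?_
  · have := congrFun h3 t
    simp at this
  · refine ⟨?_, ?_, ?_⟩
    · intro l _ v hv w hw
      have hv' : A.grp v = l := by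
        have := (Finset.mem_filter.mp hv).1
        exact (Finset.mem_filter.mp this).2
      have hw' : A.grp w = l := by
        have := (Finset.mem_filter.mp hw).1
        exact (Finset.mem_filter.mp this).2
      rw [dotProduct_single_one, dotProduct_single_one, hsg2, hsg2, hv', hw']
    · intro l _ hl
      have : l ∈ A.Ig q := Finset.mem_filter.mpr ⟨Finset.mem_univ _, hl⟩
      rw [hI] at this
      exact absurd this (Finset.notMem_empty _)
    · intro k hk
      rw [hB] at hk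
      exact absurd hk (Finset.notMem_empty _)

/-- Packet M. -/
theorem mainBound (n : ℕ) (κ : Type) [Fintype κ] (hn : 2 ≤ n) :
    LinFacts n κ → CountDef n κ → CountAct n κ → CountNonpure n κ → StripBound n κ →
    ZeroBound n κ → ClassBound n κ → Gain n κ → Recursion → Averaging → MainBound n κ := by
  intro hLin hDef hAct hNon hStrip hZero hClass hGain hRec hAv
  have hall := all_e hDef hAct hNon hStrip hGain hRec hAv
  obtain ⟨CD, hCD⟩ := hDef
  obtain ⟨CN, hCN⟩ := hNon
  obtain ⟨CZ, hCZ⟩ := hZero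
  obtain ⟨CC, hCC⟩ := hClass
  choose! Ce hCe using hall
  set CT : ℕ := ∑ e ∈ Finset.range n, Ce e with hCT
  refine ⟨CC * (CN + CZ * CD + CT), ?_⟩
  intro ι Λ _ _ A t hF hGP hB hV hT
  set al : ℕ := invAck (Fintype.card ι) + 1 with hal
  have hal1 : 1 ≤ al := by omega
  clear_value al
  have hfinV : {q | A.Vtx univ q}.Finite := (hCN ι Λ A hF hGP).1
  have h1 := hCC ι Λ A hF hGP hB
  have h2 := (hCN ι Λ A hF hGP).2
  have h3 := hCZ ι Λ A t hF hGP hV hT hn
  have h4 := (hCD ι Λ A hF hGP ∅ univ (Finset.disjoint_empty_left _)).2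
  rw [Finset.prod_empty, Finset.card_empty, size_univ] at h4
  set X : ℕ := Fintype.card ι with hX
  -- decomposition
  have hsub : {q | A.Vtx univ q ∧ ∀ l, ¬ A.In l q} ⊆
      {q | A.Vtx univ q ∧ (A.Dg q).card < n} ∪
      ({q ∈ A.PureSet 0 ∅ univ | ∀ l, ¬ A.In l q} ∪
      ⋃ e ∈ Finset.Ico 1 n, {q ∈ A.PureSet e ∅ univ | Disjoint (A.conf q) univ}) := by
    rintro q ⟨k1, k2⟩
    by_cases k3 : (A.Dg q).card < n
    · exact Or.inl ⟨k1, k3⟩
    · right
      have k4 := dg_le A q
      have k5 : (A.Dg q).card = n := by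
        have := k1.2
        omega
      have k6 := ig_pos A hLin hF hGP hV k1 k5
      have k7 : (A.Ig q).card ≤ (A.Dg q).card := Finset.card_le_card Finset.subset_union_left
      have k8 : A.Dg q ⊆ ∅ ∪ univ := fun l _ => Finset.mem_union_right _ (Finset.mem_univ l)
      by_cases k9 : (A.Ig q).card = 1
      · exact Or.inl ⟨⟨k1, k5, by omega, k8, Finset.empty_subset _⟩, k2⟩
      · right
        rw [Set.mem_iUnion₂]
        refine ⟨(A.Ig q).card - 1, Finset.mem_Ico.mpr ⟨by omega, by omega⟩,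
          ⟨k1, k5, by omega, k8, Finset.empty_subset _⟩, ?_⟩
        have k10 : A.conf q = ∅ := by
          apply Finset.filter_eq_empty_iff.mpr
          rintro l - ⟨-, h⟩
          exact k2 l h
        rw [k10]
        exact Finset.disjoint_empty_left _
  have hfinR : ({q | A.Vtx univ q ∧ (A.Dg q).card < n} ∪
      ({q ∈ A.PureSet 0 ∅ univ | ∀ l, ¬ A.In l q} ∪
      ⋃ e ∈ Finset.Ico 1 n, {q ∈ A.PureSet e ∅ univ | Disjoint (A.conf q) univ})).Finite := by
    apply hfinV.subset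
    rintro q (h | h | h)
    · exact h.1
    · exact h.1.1
    · rw [Set.mem_iUnion₂] at h
      obtain ⟨e, -, h⟩ := h
      exact h.1.1
  have h5 := Set.ncard_le_ncard hsub hfinR
  have h6 := Set.ncard_union_le {q | A.Vtx univ q ∧ (A.Dg q).card < n}
    ({q ∈ A.PureSet 0 ∅ univ | ∀ l, ¬ A.In l q} ∪
      ⋃ e ∈ Finset.Ico 1 n, {q ∈ A.PureSet e ∅ univ | Disjoint (A.conf q) univ})
  have h7 := Set.ncard_union_le {q ∈ A.PureSet 0 ∅ univ | ∀ l, ¬ A.In l q}
      (⋃ e ∈ Finset.Ico 1 n, {q ∈ A.PureSet e ∅ univ | Disjoint (A.conf q) univ})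
  have h8 : (⋃ e ∈ Finset.Ico 1 n, {q ∈ A.PureSet e ∅ univ | Disjoint (A.conf q) univ}).ncard ≤
      ∑ e ∈ Finset.Ico 1 n, N0 A e ∅ univ := by
    have gen : ∀ s : Finset ℕ,
        (⋃ e ∈ s, {q ∈ A.PureSet e ∅ univ | Disjoint (A.conf q) univ}).ncard ≤
        ∑ e ∈ s, N0 A e ∅ univ := by
      intro s
      induction s using Finset.induction_on with
      | empty => simp
      | insert a s ha ih =>
        rw [Finset.set_biUnion_insert, Finset.sum_insert ha]
        refine (Set.ncard_union_le _ _).trans ?_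
        exact Nat.add_le_add (le_refl _) ih
    exact gen _
  have h9 : ∑ e ∈ Finset.Ico 1 n, N0 A e ∅ univ ≤ CT * (X + 1) ^ (n - 1) * al := by
    calc ∑ e ∈ Finset.Ico 1 n, N0 A e ∅ univ ≤
        ∑ e ∈ Finset.Ico 1 n, Ce e * (X + 1) ^ (n - 1) * al := by
          apply Finset.sum_le_sum
          intro e he
          have he1 : 1 ≤ e := (Finset.mem_Ico.mp he).1
          have h10 := hCe e he1 ι Λ A t hF hGP hB hV ∅ univ (Finset.disjoint_empty_left _)
            (by omega)
          rw [Finset.prod_empty, Finset.card_empty, size_univ, mul_one, Nat.sub_zero, ← hX,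
            ← hal] at h10
          refine h10.trans ?_
          gcongr
          omega
      _ = (∑ e ∈ Finset.Ico 1 n, Ce e) * (X + 1) ^ (n - 1) * al := by
          rw [Finset.sum_mul, Finset.sum_mul]
      _ ≤ CT * (X + 1) ^ (n - 1) * al := by
          gcongr
          rw [hCT]
          apply Finset.sum_le_sum_of_subset
          intro e he
          exact Finset.mem_range.mpr (Finset.mem_Ico.mp he).2
  have h10 : {q | A.Vtx univ q ∧ (A.Dg q).card < n}.ncard ≤ CN * (X + 1) ^ (n - 1) * al :=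
    h2.trans (Nat.le_mul_of_pos_right _ hal1)
  have h11 : {q ∈ A.PureSet 0 ∅ univ | ∀ l, ¬ A.In l q}.ncard ≤
      CZ * CD * (X + 1) ^ (n - 1) * al := by
    refine h3.trans ?_
    calc CZ * (A.DefSet ∅ univ).ncard ≤ CZ * (CD * 1 * X ^ (n - 1 - 0)) := by gcongr
      _ ≤ CZ * (CD * 1 * (X + 1) ^ (n - 1 - 0)) := by
          gcongr
          omega
      _ = CZ * CD * (X + 1) ^ (n - 1) := by
          rw [Nat.sub_zero]
          ring
      _ ≤ _ := Nat.le_mul_of_pos_right _ hal1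
  have h12 : {q | A.Vtx univ q ∧ ∀ l, ¬ A.In l q}.ncard ≤
      (CN + CZ * CD + CT) * (X + 1) ^ (n - 1) * al := by
    have h13 := h8.trans h9
    have : (CN + CZ * CD + CT) * (X + 1) ^ (n - 1) * al = CN * (X + 1) ^ (n - 1) * al +
      (CZ * CD * (X + 1) ^ (n - 1) * al + CT * (X + 1) ^ (n - 1) * al) := by ring
    rw [this]
    omega
  refine h1.trans ?_
  calc _ ≤ CC * ((CN + CZ * CD + CT) * (X + 1) ^ (n - 1) * al) := Nat.mul_le_mul_left _ h12
    _ = _ := by ring

end Pool.Agent.Helper85.Trans
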